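import Pool.Agent.helper14.AV.Spec3

set_option autoImplicit false

namespace Pool.Agent.helper14.AV

theorem TRG_tr {a b c : ℝ} (h1 : 0 < a * b) (h2 : 0 < b * c) : 0 < a * c := by
  have h3 : 0 < (a * b) * (b * c) := mul_pos h1 h2
  have h4 : (a * b) * (b * c) = (a * c) * (b * b) := by ring
  rw [h4] at h3
  exact pos_of_mul_pos_left h3 (mul_self_nonneg b)

theorem TRG_sq {a b : ℝ} (h1 : 0 < a * b) : 0 < a * a := by
  have h2 : 0 < b * a := by rw [mul_comm]; exact h1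
  exact TRG_tr h1 h2

theorem TRG_row {ι : Type} {P Q : ι → ℝ × ℝ} (h : NSd P Q) {u i j : ι} (hi : u ≠ i) (hj : u ≠ j)
    (hs : SS P Q u i j) :
    0 < D (P u) (Q u) (P i) * D (P u) (Q u) (P i) ∧ 0 < D (P u) (Q u) (P i) * D (P u) (Q u) (Q i) ∧
    0 < D (P u) (Q u) (P i) * D (P u) (Q u) (P j) ∧ 0 < D (P u) (Q u) (P i) * D (P u) (Q u) (Q j) :=
  ⟨TRG_sq (h u i hi), h u i hi, hs, TRG_tr hs (h u j hj)⟩

theorem TRG (hTRI : TRI_stmt) : TRG_stmt := by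
  intro ι P Q h i j l hij hil hjl hi hj hl x x' y y' z z' hx hx' hy hy' hz hz'
  exact hTRI (P i) (Q i) (P j) (Q j) (P l) (Q l) _ _ _ (TRG_row h hij hil hi)
    (TRG_row h hij.symm hjl hj) (TRG_row h hil.symm hjl.symm hl) x x' y y' z z' hx hx' hy hy' hz hz'

end Pool.Agent.helper14.AV
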